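import Pool.Agent.BSI.Stmts
import Pool.Agent.Helper78_ACIT.Prime

/-!
# BSI row TS2 (the test)
-/

set_option autoImplicit false

namespace Pool.Agent.BSI.H5

open MvPolynomial Pool.Agent.Helper78_ACIT Pool.Agent.BSH

theorem ext_map {A A' : Type} [CommRing A] [CommRing A'] (φ : A →+* A') {N : ℕ} (ξ : Fin N → A)
    (i : ℕ) : φ (ext ξ i) = ext (fun j => φ (ξ j)) i := by
  unfold Pool.Agent.BSH.ext
  split_ifs
  · rfl
  · exact map_zero φ

theorem pt_map {A A' : Type} [CommRing A] [CommRing A'] (φ : A →+* A') (r q C : ℕ) (t : ℕ → A)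
    (i : ℕ) : φ (pt r q C t i) = pt r q C (fun m => φ (t m)) i := by
  unfold pt
  split_ifs
  · rfl
  · rw [map_sum]
    refine Finset.sum_congr rfl fun m _ => ?_
    simp only [map_mul, map_pow, map_add, map_natCast, map_one]
  · exact map_zero φ

theorem tval_eq (r q C p N : ℕ) (ξ : Fin (4 * r) → Fin N) (G : List Gate) :
    tval r q C p N ξ G =
      ((eval (pt r q C (ext fun j => (((ξ j : ℕ) : ℤ)))) (poly G) : ℤ) : ZMod p) := by
  unfold tval
  have h1 := out_map (Int.castRingHom (ZMod p)) (pt r q C (ext fun j => (((ξ j : ℕ) : ℤ)))) G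
  have h2 : (fun i => Int.castRingHom (ZMod p) (pt r q C (ext fun j => (((ξ j : ℕ) : ℤ))) i)) =
      pt r q C (ext fun j => ((ξ j : ℕ) : ZMod p)) := by
    funext i
    rw [pt_map]
    congr 1
    funext m
    rw [ext_map]
    simp
  rw [h2] at h1
  rw [← h1, out_eq_eval]
  rfl

theorem ts2 (hIH : Ih2Stmt) (hSI : Si2Stmt) : Ts2Stmt := by
  intro E _ _ r q C hr P hP D b L G hDL hG hpoly
  constructor
  · rintro ⟨-, h0⟩ p _ _ ξ
    rw [tval_eq, h0, map_zero, Int.cast_zero]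
  · intro htest
    refine ⟨hG, ?_⟩
    rcases hpoly with h0 | ⟨hD, hb, F, hF, hF0, hdvd⟩
    · exact h0
    exfalso
    obtain ⟨ξ, hξ, hne⟩ := hIH E r q C D (poly G) hD F (hP F hF hF0) hdvd
    obtain ⟨V, hV⟩ : ∃ V, V = eval (pt r q C (ext fun j => (ξ j : ℤ))) (poly G) := ⟨_, rfl⟩
    rw [← hV] at hne
    have hξL : ∀ j, ξ j ≤ 2 ^ L := fun j => (hξ j).trans hDL
    have hVle : V.natAbs ≤ 2 ^ (b + D * (4 * r ^ 2 + L * (2 ^ (q * C) + 1))) := by
      rw [hV]
      refine (UO.natAbs_eval_le (poly G) _ (2 ^ (4 * r ^ 2 + L * (2 ^ (q * C) + 1))) D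
        (Nat.one_le_pow _ _ (by norm_num)) (hSI r q C L ξ hr hξL) hD).trans ?_
      rw [← pow_mul, pow_add]
      refine Nat.mul_le_mul hb (Nat.pow_le_pow_right (by norm_num) ?_)
      rw [mul_comm]
    obtain ⟨p, hp, hple, hpnd⟩ := exists_prime_not_dvd V.natAbs _ (Int.natAbs_ne_zero.mpr hne)
      hVle
    apply hpnd
    have h1 := htest p hp hple (fun j => ⟨ξ j, Nat.lt_succ_of_le (hξ j)⟩)
    rw [tval_eq] at h1
    have h2 : ((V : ℤ) : ZMod p) = 0 := by
      rw [hV]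
      exact h1
    rw [ZMod.intCast_zmod_eq_zero_iff_dvd, Int.natCast_dvd] at h2
    exact h2

end Pool.Agent.BSI.H5
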